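import Mathlib
import Pool.Agent.R343.LP4

set_option autoImplicit false

/-!
# Integral points of small Lempel-Ziv complexity on hyperelliptic curves

All curves `y ^ 2 = f(x)`, `f` an integral polynomial of degree `d ≥ 3` without repeated roots whose
coefficients have absolute value at most `M`, and all integral points `(x, y)`.

A word (sequence of letters) has Lempel-Ziv complexity at most `z` if it is the concatenation of `z`
phrases, each of which is a single letter or a copy of a block that begins further to the left (the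
block may overlap the phrase). For instance `u ^ m`, `u` a word of length `k`, has complexity at most
`k + 1` for all `m`.

1. (digits) Let `b` be any integer, `|b| ≥ 2`, and let `x = ∑ b ^ (L - 1 - j) a_j`,
   `y = ∑ b ^ (L - 1 - j) a'_j` with integral digits `|a_j|, |a'_j| ≤ B` (for instance the base `|b|`
   digits with the signs of `x` and `y`) such that the word of the pairs `(a_j, a'_j)` has complexity
   at most `z`. Then

   `max |x| 1 ≤ ((d + 2) M (6 ^ (z + 1) B) ^ d) ^ (1 + 8 (4 d) ^ (6 ^ (z + 1)))`,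

   so `h(x) ≤ C₁ h(f) + C₂`, where `C₁` depends on `d` and `z` and `C₂` on `d`, `z` and `B`. There is
   no restriction on the length `L` and on the lengths of the periods and copied blocks.

2. (algebraic bases) More generally, let `K` be a number field, `t ∈ K` not a root of unity, `w ≠ 0`
   in `K` such that `w`, `w x`, `w y` are the values in base `t` of the components of a word of
   complexity at most `z` over `K ^ 3`. Then
   `h(x) ≤ (1 + 8 (4 d) ^ (6 ^ z)) (d h(a) + log ((d + 2) M 6 ^ (z d)))` with the absolute height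
   `h(a)` of the tuple of all digits.
-/

namespace Pool.Agent.Results.MP_d88658_nt.LempelZivPoints

open Finset Pool.Agent.R343.LP

theorem result (d : ℕ) (hd : 3 ≤ d) (f : Polynomial ℤ) (hf : f.natDegree = d)
    (hs : (f.map (Int.castRingHom ℚ)).Separable) (M : ℝ) (hM : 1 ≤ M)
    (hfM : ∀ i, |(f.coeff i : ℝ)| ≤ M) (x y : ℤ) (hxy : y ^ 2 = f.eval x) :
    (∀ (b : ℤ), 2 ≤ |b| → ∀ (L z : ℕ) (B : ℝ), 1 ≤ B → ∀ a a' : ℕ → ℤ,
      (∀ j < L, |(a j : ℝ)| ≤ B) → (∀ j < L, |(a' j : ℝ)| ≤ B) →
      LZ (fun j => (a j, a' j)) L z →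
      x = ∑ j ∈ range L, b ^ (L - 1 - j) * a j → y = ∑ j ∈ range L, b ^ (L - 1 - j) * a' j →
      max |(x : ℝ)| 1 ≤
        ((d + 2) * M * (6 ^ (z + 1) * B) ^ d) ^ (1 + 8 * (4 * d) ^ (6 ^ (z + 1)))) ∧
    (∀ (K : Type) [Field K] [NumberField K] (t : K), (∀ p, 0 < p → t ^ p ≠ 1) →
      ∀ (L z : ℕ) (a : ℕ → Fin 3 → K), LZ a L z → ∀ w : K, w ≠ 0 →
      w = ∑ j ∈ range L, t ^ (L - 1 - j) * a j 0 →
      w * x = ∑ j ∈ range L, t ^ (L - 1 - j) * a j 1 →
      w * y = ∑ j ∈ range L, t ^ (L - 1 - j) * a j 2 →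
      Real.log (max |(x : ℝ)| 1) ≤ (1 + 8 * (4 * d) ^ (6 ^ z)) *
        (d * wordHeight K a L + Real.log ((d + 2) * M * 6 ^ (z * d)))) := by
  subst hf
  exact ⟨fun b hb L z B hB a a' ha ha' hLZ hx hy =>
      hyp_digits f hs hd M hM hfM x y hxy b hb L z B hB a a' ha ha' hLZ hx hy,
    fun K _ _ t ht L z a hLZ w hw h0 h1 h2 =>
      hyp_lz K f hs hd M hM hfM x y hxy t ht L z a hLZ w hw h0 h1 h2⟩

end Pool.Agent.Results.MP_d88658_nt.LempelZivPoints
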