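import Mathlib
import Pool.Agent.R366.HE.Main

set_option autoImplicit false

/-!
# Integral points on `y² = G(x) + h(x)` for a given polynomial `G` and almost all small `h`

Let `G` be an ARBITRARY polynomial with integral coefficients, of any degree and with coefficients of
any size, `k ≥ 2` and `H ≥ 1`. We consider the curves `y² = f(x)`, `f = G + h`, where `h` runs through
the about `(2 H) ^ (k + 1)` integral polynomials of degree at most `k` with coefficients of absolute
value at most `H`. We show that altogether these curves have at most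
`C X ^ ε (H ^ (k + 1/2) + H ^ ((k + 1) / 2) X)` integral points with `|x| ≤ X`, where `C` depends on
`k` and `ε` only, and not on `G`.

So all but a proportion `O(H ^ (-η))` of the curves have no integral point at all with
`|x| ≤ H ^ ((k + 1) / 2 - δ)`. For example (`k = d`, `G = 0` or any `G` of degree at most `d`) this
is true for almost all polynomials `f` of degree `d` with coefficients at most `H`, and even for
almost all `f` in every box of side `H` in the space of the polynomials of degree at most `d`, in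
the range `|x| ≤ H ^ ((d + 1) / 2 - δ)`; and if only the `k + 1` lowest coefficients of a given
polynomial of degree `d` are changed, in the range `|x| ≤ H ^ ((k + 1) / 2 - δ)`.

Method: if `|x| > 2 H` then the values `h(x)` are distinct, and a difference of two values
`G(x) + h(x)` which are squares is a nonzero value at `x` of one of `O(H ^ (k + 1))` polynomials, and
it is the difference of two squares in few ways. So at most `H ^ ((k + 1) / 2 + ε)` of the `h` lead to
squares.
-/

namespace Pool.Agent.Results.MP_d88658_nt.PerturbationsOfAnyPolynomial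

/-- the tuples `(c, x, y)`: `c` is the coefficient vector of a polynomial `h = ∑ c_i T^i` of degree at
most `k` with `|c_i| ≤ H`, and `(x, y)` is an integral point of `y² = G(x) + h(x)` with `|x| ≤ X` -/
def Points (k : ℕ) (G : Polynomial ℤ) (H X : ℝ) : Set ((Fin (k + 1) → ℤ) × ℤ × ℤ) :=
  {p | (∀ i, |(p.1 i : ℝ)| ≤ H) ∧ |(p.2.1 : ℝ)| ≤ X ∧
    p.2.2 ^ 2 = G.eval p.2.1 + ∑ i : Fin (k + 1), p.1 i * p.2.1 ^ (i : ℕ)}

/-- **The number of integral points on the curves `y² = G(x) + h(x)`, `G` fixed and arbitrary, `h`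
small.** -/
theorem result (k : ℕ) (hk : 2 ≤ k) (ε : ℝ) (hε : 0 < ε) :
    ∃ C : ℝ, ∀ (G : Polynomial ℤ) (H X : ℝ), 1 ≤ H → 1 ≤ X →
      (Points k G H X).Finite ∧ ((Points k G H X).ncard : ℝ) ≤
        C * X ^ ε * (H ^ ((k : ℝ) + 1 / 2) + H ^ (((k : ℝ) + 1) / 2) * X) := by
  classical
  obtain ⟨C, hC, h⟩ := Pool.Agent.R366.HE.integral k hk hε
  refine ⟨2 * C, fun G H X hH hX => ?_⟩
  apply Pool.Agent.R366.HE.finite_of_card
  intro T hT
  let φ : ((Fin (k + 1) → ℤ) × ℤ × ℤ) → ((Fin (k + 1) → ℤ) × ℤ) := fun p => (p.1, p.2.1)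
  have h1 := h H X hH hX (fun x => G.eval x) (T.image φ) (by
    intro z hz
    obtain ⟨p, hp, rfl⟩ := Finset.mem_image.1 hz
    obtain ⟨g1, g2, g3⟩ := hT hp
    exact ⟨g1, g2, p.2.2, g3⟩)
  have h2 : T.card ≤ 2 * (T.image φ).card := by
    refine Finset.card_le_mul_card_image T 2 ?_
    intro z _
    by_cases hne : (T.filter fun p => φ p = z).Nonempty
    · obtain ⟨p, hp⟩ := hne
      have hsub : (T.filter fun p => φ p = z) ⊆ {(p.1, p.2.1, p.2.2), (p.1, p.2.1, -p.2.2)} := by
        intro p' hp'
        rw [Finset.mem_filter] at hp hp'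
        have e0 : (p'.1, p'.2.1) = (p.1, p.2.1) := hp'.2.trans hp.2.symm
        have e1 : p'.1 = p.1 := (Prod.mk.inj e0).1
        have e2 : p'.2.1 = p.2.1 := (Prod.mk.inj e0).2
        have e4 : p'.2.2 ^ 2 = p.2.2 ^ 2 := by
          rw [(hT hp'.1).2.2, (hT hp.1).2.2, e1, e2]
        rw [Finset.mem_insert, Finset.mem_singleton]
        rcases sq_eq_sq_iff_eq_or_eq_neg.1 e4 with e5 | e5
        · left
          exact Prod.ext e1 (Prod.ext e2 e5)
        · right
          exact Prod.ext e1 (Prod.ext e2 e5)
      exact (Finset.card_le_card hsub).trans Finset.card_le_two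
    · rw [Finset.not_nonempty_iff_eq_empty] at hne
      rw [hne, Finset.card_empty]
      omega
  have h3 : (T.card : ℝ) ≤ 2 * ((T.image φ).card : ℝ) := by exact_mod_cast h2
  have h4 : 2 * C * X ^ ε * (H ^ ((k : ℝ) + 1 / 2) + H ^ (((k : ℝ) + 1) / 2) * X) =
      2 * (C * X ^ ε * (H ^ ((k : ℝ) + 1 / 2) + H ^ (((k : ℝ) + 1) / 2) * X)) := by ring
  rw [h4]
  linarith

end Pool.Agent.Results.MP_d88658_nt.PerturbationsOfAnyPolynomial
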