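import Pool.Agent.R728.RC.Each
import Pool.Agent.Results.MP_d88658_nt.PerturbationsOfAnyPolynomial

/-!
# Small integral points on hyperelliptic curves in random residue classes

Let `𝓜` be a set of moduli with `∑ m ^ (-s) < ∞` and let `X m` be random elements of any sets
`Y m`, each value of which has probability at most `A m ^ (-θ)`; no independence is assumed. Let
`φ m` be any maps from the `(k + 1)`-tuples of integers to `Y m`, for instance the reduction modulo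
`m`. Let `k ≥ 2`, `σ > 0`, `ρ ≥ 0` and `σ max (k + 1/2, (k + 1)/2 + ρ) < θ - s`. Almost surely, for
EVERY integral polynomial `G` and all but finitely many `m` in `𝓜`, for ALL integral polynomials
`h = ∑ z_i x^i` of degree at most `k` with coefficients at most `m ^ σ` in absolute value and
`φ m z = X m`, all integral points `(x, y)` of `y² = G(x) + h(x)` satisfy `|x| > m ^ (σ ρ)`. If `m`
runs through the powers of a number and `X m` is uniform modulo `m`, then `σ` can be larger than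
`1`.
-/

set_option autoImplicit false

namespace Pool.Agent.Results.MP_d88658_nt.RandomResidues

open MeasureTheory

/-- the coefficient vectors with entries at most `H` in absolute value of polynomials `h` of degree
at most `k` such that `y² = G(x) + h(x)` has an integral point with `|x| ≤ X` -/
def Exc (k : ℕ) (G : Polynomial ℤ) (H X : ℝ) : Set (Fin (k + 1) → ℤ) :=
  {z | (∀ i, |(z i : ℝ)| ≤ H) ∧ ∃ x y : ℤ, |(x : ℝ)| ≤ X ∧
    y ^ 2 = G.eval x + ∑ i : Fin (k + 1), z i * x ^ (i : ℕ)}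

lemma exc_card (k : ℕ) (hk : 2 ≤ k) (ε : ℝ) (hε : 0 < ε) : ∃ C : ℝ, ∀ (G : Polynomial ℤ) (H X : ℝ),
    1 ≤ H → 1 ≤ X → (Exc k G H X).Finite ∧ (((Exc k G H X).ncard : ℕ) : ℝ) ≤
      C * X ^ ε * (H ^ ((k : ℝ) + 1 / 2) + H ^ (((k : ℝ) + 1) / 2) * X) := by
  obtain ⟨C, h⟩ := PerturbationsOfAnyPolynomial.result k hk ε hε
  refine ⟨C, fun G H X hH hX => ?_⟩
  obtain ⟨h1, h2⟩ := h G H X hH hX
  have himg : Exc k G H X ⊆ Prod.fst '' (PerturbationsOfAnyPolynomial.Points k G H X) := by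
    rintro z ⟨g1, x, y, g2, g3⟩
    exact ⟨(z, x, y), ⟨g1, g2, g3⟩, rfl⟩
  refine ⟨(h1.image _).subset himg, le_trans ?_ h2⟩
  exact_mod_cast (Set.ncard_le_ncard himg (h1.image _)).trans (Set.ncard_image_le h1)

/-- the general statement -/
lemma general {k : ℕ} (hk : 2 ≤ k) {𝓜 : Set ℕ} {s θ A σ ρ : ℝ} {Ω : Type} [MeasurableSpace Ω]
    {P : Measure Ω} {Y : ℕ → Type} {X : ∀ m : ℕ, Ω → Y m}
    {φ : ∀ m : ℕ, (Fin (k + 1) → ℤ) → Y m}
    (h0 : ∀ m ∈ 𝓜, 0 < m) (hsum : Summable fun m : 𝓜 => ((m : ℕ) : ℝ) ^ (-s))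
    (hX : ∀ m ∈ 𝓜, ∀ r : Y m, P {ω | X m ω = r} ≤ ENNReal.ofReal (A * (m : ℝ) ^ (-θ)))
    (hσ : 0 < σ) (hρ : 0 ≤ ρ) (h : σ * max ((k : ℝ) + 1 / 2) (((k : ℝ) + 1) / 2 + ρ) < θ - s) :
    ∀ᵐ ω ∂P, ∀ G : Polynomial ℤ, ∃ m₀ : ℕ, ∀ m ∈ 𝓜, m₀ ≤ m → ∀ z : Fin (k + 1) → ℤ,
      (∀ i, |(z i : ℝ)| ≤ (m : ℝ) ^ σ) → φ m z = X m ω → ∀ x y : ℤ,
      y ^ 2 = G.eval x + ∑ i : Fin (k + 1), z i * x ^ (i : ℕ) → (m : ℝ) ^ (σ * ρ) < |(x : ℝ)| := by
  have hcount : Countable (Polynomial ℤ) := by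
    rw [← Cardinal.mk_le_aleph0_iff]
    exact Polynomial.cardinalMk_le_max.trans (by simp)
  rw [ae_all_iff]
  intro G
  set μ : ℝ := max ((k : ℝ) + 1 / 2) (((k : ℝ) + 1) / 2 + ρ) with hμ
  set ε : ℝ := (θ - s - σ * μ) / (σ * ρ + 1) with hε
  have hε0 : 0 < ε := by
    apply div_pos (by linarith)
    positivity
  have hεle : σ * ρ * ε ≤ θ - s - σ * μ := by
    rw [hε, mul_div_assoc', div_le_iff₀ (by positivity)]
    nlinarith [mul_nonneg hσ.le hρ]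
  obtain ⟨C, hC⟩ := exc_card k hk ε hε0
  have hmain := Pool.Agent.R728.RC.eventually_each (𝓜 := 𝓜) (s := s) (θ := θ) (A := A)
    (D := 2 * |C|) (X := X) (φ := φ) (P := P)
    (F := fun m => Exc k G ((m : ℝ) ^ σ) ((m : ℝ) ^ (σ * ρ))) h0 hsum hX (by
      intro m hm
      have h3 : (1 : ℝ) ≤ (m : ℝ) := by exact_mod_cast h0 m hm
      have h30 : (0 : ℝ) ≤ (m : ℝ) := by linarith
      obtain ⟨h1, h2⟩ := hC G ((m : ℝ) ^ σ) ((m : ℝ) ^ (σ * ρ)) (Real.one_le_rpow h3 hσ.le)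
        (Real.one_le_rpow h3 (by positivity))
      refine ⟨h1, h2.trans ?_⟩
      have e1 : ((m : ℝ) ^ (σ * ρ)) ^ ε ≤ (m : ℝ) ^ (θ - s - σ * μ) := by
        rw [← Real.rpow_mul h30]
        exact Real.rpow_le_rpow_of_exponent_le h3 hεle
      have e2 : ((m : ℝ) ^ σ) ^ ((k : ℝ) + 1 / 2) ≤ (m : ℝ) ^ (σ * μ) := by
        rw [← Real.rpow_mul h30]
        exact Real.rpow_le_rpow_of_exponent_le h3
          (mul_le_mul_of_nonneg_left (le_max_left _ _) hσ.le)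
      have e3 : ((m : ℝ) ^ σ) ^ (((k : ℝ) + 1) / 2) * (m : ℝ) ^ (σ * ρ) ≤ (m : ℝ) ^ (σ * μ) := by
        rw [← Real.rpow_mul h30, ← Real.rpow_add (by linarith), ← mul_add]
        exact Real.rpow_le_rpow_of_exponent_le h3
          (mul_le_mul_of_nonneg_left (le_max_right _ _) hσ.le)
      have e4 : (m : ℝ) ^ (θ - s) = (m : ℝ) ^ (θ - s - σ * μ) * (m : ℝ) ^ (σ * μ) := by
        rw [← Real.rpow_add (by linarith)]
        congr 1
        ring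
      have e5 : (0 : ℝ) ≤ ((m : ℝ) ^ (σ * ρ)) ^ ε := by positivity
      calc C * ((m : ℝ) ^ (σ * ρ)) ^ ε * (((m : ℝ) ^ σ) ^ ((k : ℝ) + 1 / 2) +
            ((m : ℝ) ^ σ) ^ (((k : ℝ) + 1) / 2) * (m : ℝ) ^ (σ * ρ))
          ≤ |C| * (m : ℝ) ^ (θ - s - σ * μ) * ((m : ℝ) ^ (σ * μ) + (m : ℝ) ^ (σ * μ)) := by
            apply mul_le_mul _ (add_le_add e2 e3) (by positivity) (by positivity)
            exact mul_le_mul (le_abs_self C) e1 e5 (abs_nonneg C)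
        _ = 2 * |C| * (m : ℝ) ^ (θ - s) := by
            rw [e4]
            ring)
  filter_upwards [hmain] with ω hω
  obtain ⟨m₀, hm₀⟩ := hω
  refine ⟨m₀, fun m hm hmm z hz hφ x y hxy => ?_⟩
  by_contra hcon
  push Not at hcon
  exact hm₀ m hm hmm z ⟨hz, x, y, hcon, hxy⟩ hφ

/-- **Theorem.** Let `k ≥ 2`, `σ > 0`, `ρ ≥ 0` and `μ = max (k + 1/2, (k + 1)/2 + ρ)`.

(1) Let `𝓜` be a set of positive integers with a convergent sum of the `m ^ (-s)`, let `X m` be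
random elements of arbitrary sets `Y m`, each value of which has probability at most
`A m ^ (-θ)` (no independence is assumed), and let `φ m` be any maps from the integral vectors
`z = (z_0, ..., z_k)` to `Y m`; let `σ μ < θ - s`. Almost surely, for EVERY integral polynomial
`G` (of any degree) and all but finitely many `m` in `𝓜`, for ALL `z` with `|z_i| ≤ m ^ σ` and
`φ m z = X m`, all integral points `(x, y)` of `y² = G(x) + ∑ z_i x^i` have `|x| > m ^ (σ ρ)`.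

(2) In particular this holds for all but finitely many powers `m` of an integer `b ≥ 2` and all
`z ≡ X m` modulo `m`, `|z_i| ≤ m ^ σ`, if `X m` is random modulo `m`, each value having probability
at most `A m ^ (-(k + 1))`, and `σ μ < k + 1`, where `σ > 1` is allowed if `ρ < (k + 1)/2`. -/
theorem result (k : ℕ) (hk : 2 ≤ k) (σ ρ : ℝ) (hσ : 0 < σ) (hρ : 0 ≤ ρ) :
    (∀ (𝓜 : Set ℕ) (s θ A : ℝ) (Ω : Type) [MeasurableSpace Ω] (P : Measure Ω) (Y : ℕ → Type)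
      (X : ∀ m : ℕ, Ω → Y m) (φ : ∀ m : ℕ, (Fin (k + 1) → ℤ) → Y m),
      (∀ m ∈ 𝓜, 0 < m) → (Summable fun m : 𝓜 => ((m : ℕ) : ℝ) ^ (-s)) →
      (∀ m ∈ 𝓜, ∀ r : Y m, P {ω | X m ω = r} ≤ ENNReal.ofReal (A * (m : ℝ) ^ (-θ))) →
      σ * max ((k : ℝ) + 1 / 2) (((k : ℝ) + 1) / 2 + ρ) < θ - s →
      ∀ᵐ ω ∂P, ∀ G : Polynomial ℤ, ∃ m₀ : ℕ, ∀ m ∈ 𝓜, m₀ ≤ m → ∀ z : Fin (k + 1) → ℤ,
        (∀ i, |(z i : ℝ)| ≤ (m : ℝ) ^ σ) → φ m z = X m ω → ∀ x y : ℤ,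
        y ^ 2 = G.eval x + ∑ i : Fin (k + 1), z i * x ^ (i : ℕ) →
        (m : ℝ) ^ (σ * ρ) < |(x : ℝ)|) ∧
    ∀ (b : ℕ) (A : ℝ) (Ω : Type) [MeasurableSpace Ω] (P : Measure Ω)
      (X : ∀ m : ℕ, Ω → (Fin (k + 1) → ZMod m)), 2 ≤ b →
      (∀ (j : ℕ) (r : Fin (k + 1) → ZMod (b ^ j)), P {ω | X (b ^ j) ω = r} ≤
        ENNReal.ofReal (A * ((b ^ j : ℕ) : ℝ) ^ (-((k : ℝ) + 1)))) →
      σ * max ((k : ℝ) + 1 / 2) (((k : ℝ) + 1) / 2 + ρ) < (k : ℝ) + 1 →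
      ∀ᵐ ω ∂P, ∀ G : Polynomial ℤ, ∃ m₀ : ℕ, ∀ j : ℕ, m₀ ≤ b ^ j → ∀ z : Fin (k + 1) → ℤ,
        (∀ i, |(z i : ℝ)| ≤ ((b ^ j : ℕ) : ℝ) ^ σ) →
        (fun i => (z i : ZMod (b ^ j))) = X (b ^ j) ω → ∀ x y : ℤ,
        y ^ 2 = G.eval x + ∑ i : Fin (k + 1), z i * x ^ (i : ℕ) →
        ((b ^ j : ℕ) : ℝ) ^ (σ * ρ) < |(x : ℝ)| := by
  refine ⟨fun 𝓜 s θ A Ω _ P Y X φ h0 hsum hX h => general hk h0 hsum hX hσ hρ h,
    fun b A Ω _ P X hb hX h => ?_⟩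
  have hmain := general (𝓜 := {m : ℕ | ∃ j : ℕ, m = b ^ j})
    (s := ((k : ℝ) + 1 - σ * max ((k : ℝ) + 1 / 2) (((k : ℝ) + 1) / 2 + ρ)) / 2)
    (θ := (k : ℝ) + 1) (A := A) (P := P) (X := X) (φ := fun m z i => (z i : ZMod m)) hk
    (by rintro m ⟨j, rfl⟩; positivity)
    (Pool.Agent.R728.RC.summable_powers hb (by linarith))
    (by rintro m ⟨j, rfl⟩ r; exact hX j r) hσ hρ (by linarith)
  filter_upwards [hmain] with ω hω G
  obtain ⟨m₀, hm₀⟩ := hω G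
  exact ⟨m₀, fun j hj z hz hφ => hm₀ (b ^ j) ⟨j, rfl⟩ hj z hz hφ⟩

end Pool.Agent.Results.MP_d88658_nt.RandomResidues
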