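import Pool.Agent.Results.MP_d88658_nt.PerturbationsOfAnyPolynomial
import Pool.Agent.R482.ST.Vec
import Mathlib.Algebra.Polynomial.Cardinal

/-!
# The curves `y² = f(x)` with coefficients near the vectors of a sequence have no small integral points

Let `f_k`, `k = 0, 1, 2, …`, be positive functions on `(a₀, ∞)`, `a₀ ≥ 0`, such that `f_k(t) / t` is nondecreasing, and such
that the sequence `f_k(t)` has exponent of convergence at most `τ` for each `t > a₀`: for instance `f_k(t) = v_k t`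
(dilatations; `τ` the exponent of convergence of `v_k > 0`), `f_k(t) = t ^ (v_k)` for exponents `v_k ≥ 1` (`τ = 0`), or the
orbits `f_k(t) = g (g (⋯ g (t)))` of any map `g` with `g(t) > t` and `g(t) / t` nondecreasing (`τ = 0`).
Let `k ≥ 2`, `ρ ≥ 0`, `θ < 1`. For all vectors `u` in `ℝ^(k+1)` (maximum norm), `‖u‖ > a₀`, outside a set of Hausdorff
dimension at most `(max (k + 1/2) ((k + 1)/2 + ρ) + τ) / (1 - θ)`, for ALL integral polynomials `G` of any degree, each `c`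
and all but finitely many `n`: for ALL integral polynomials `h` of degree at most `k` with coefficients near `(r / ‖u‖) u`,
`r = f_n(‖u‖)`, the curve `y² = G(x) + h(x)` has no integral point with `|x| ≤ r ^ ρ`.
-/

set_option autoImplicit false

namespace Pool.Agent.Results.MP_d88658_nt.StarshapedPolynomials

open PerturbationsOfAnyPolynomial (Points)

/-- the functions `f n` are positive on `(a, ∞)`, `a ≥ 0`, and `f n x / x` is nondecreasing there -/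
def Starshaped (a : ℝ) (f : ℕ → ℝ → ℝ) : Prop :=
  0 ≤ a ∧ ∀ n : ℕ, ∀ x y : ℝ, a < x → x ≤ y → 0 < f n x ∧ f n x / x ≤ f n y / y

/-- for each `x > a` the exponent of convergence of the sequence `f n x` is at most `τ` -/
def ExpLe (a : ℝ) (f : ℕ → ℝ → ℝ) (τ : ℝ) : Prop :=
  ∀ x : ℝ, a < x → ∀ t : ℝ, τ < t → Summable (fun n : ℕ => (f n x) ^ (-t))

/-- the components of `z` differ by at most `ρ` from those of `(g ‖u‖ / ‖u‖) u` -/
def Near {k : ℕ} (g : ℝ → ℝ) (ρ : ℝ) (u : Fin (k + 1) → ℝ) (z : Fin (k + 1) → ℤ) : Prop :=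
  ∀ i, |(z i : ℝ) - g ‖u‖ / ‖u‖ * u i| ≤ ρ

/-- **Theorem.** Let `k ≥ 2`, `ρ ≥ 0`, `f` starshaped functions on `(a₀, ∞)` of exponent of convergence at most `τ ≥ 0` and
`θ < 1`. There is a set `E` of Hausdorff dimension at most `(max (k + 1/2) ((k + 1)/2 + ρ) + τ) / (1 - θ)` such that for each `u`
outside `E`, `‖u‖ > a₀`, ALL integral polynomials `G`, each `c` and all but finitely many `n`, for ALL integral vectors `z` near
`(r / ‖u‖) u`, `r = f_n(‖u‖)` (`Near`, with `c r ^ θ`), all integral solutions of `y² = G(x) + ∑ z_i x^i` have `|x| > r ^ ρ`.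
The functions `v_n x`, `v_n > 0`, are starshaped on `(0, ∞)`, of exponent `τ` if `v` has exponent of convergence at most
`τ`; the functions `x ^ (v_n)`, `v_n ≥ 1`, are starshaped on `(1, ∞)`, of exponent `0` if the sums of `exp (-t v_n)` converge
for `t > 0`; and the iterates of a map `g` with `g(x) > x` for `x > a` and `g(x) / x` nondecreasing are starshaped on
`(a, ∞)`, of exponent `0`. -/
theorem result :
    (∀ (k : ℕ), 2 ≤ k → ∀ ρ : ℝ, 0 ≤ ρ → ∀ (f : ℕ → ℝ → ℝ) (a₀ τ θ : ℝ), Starshaped a₀ f → 0 ≤ τ → ExpLe a₀ f τ →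
      θ < 1 → ∃ E : Set (Fin (k + 1) → ℝ),
        dimH E ≤ ENNReal.ofReal ((max ((k : ℝ) + 1 / 2) (((k : ℝ) + 1) / 2 + ρ) + τ) / (1 - θ)) ∧
        ∀ u : Fin (k + 1) → ℝ, a₀ < ‖u‖ → u ∉ E → ∀ (G : Polynomial ℤ) (c : ℝ), ∃ n₀ : ℕ, ∀ n : ℕ, n₀ ≤ n →
          ∀ z : Fin (k + 1) → ℤ, Near (f n) (c * (f n ‖u‖) ^ θ) u z →
            ∀ x y : ℤ, y ^ 2 = G.eval x + ∑ i : Fin (k + 1), z i * x ^ (i : ℕ) → (f n ‖u‖) ^ ρ < |(x : ℝ)|) ∧
    (∀ (v : ℕ → ℝ) (τ : ℝ), (∀ n, 0 < v n) → (∀ t : ℝ, τ < t → Summable (fun n : ℕ => (v n) ^ (-t))) →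
      Starshaped 0 (fun n x => v n * x) ∧ ExpLe 0 (fun n x => v n * x) τ) ∧
    (∀ v : ℕ → ℝ, (∀ n, 1 ≤ v n) → (∀ t : ℝ, 0 < t → Summable fun n : ℕ => Real.exp (-(t * v n))) →
      Starshaped 1 (fun n x => x ^ (v n)) ∧ ExpLe 1 (fun n x => x ^ (v n)) 0) ∧
    (∀ (a : ℝ) (g : ℝ → ℝ), 0 ≤ a → (∀ x y : ℝ, a < x → x ≤ y → g x / x ≤ g y / y) → (∀ x : ℝ, a < x → x < g x) →
      Starshaped a (fun n x => g^[n] x) ∧ ExpLe a (fun n x => g^[n] x) 0) := by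
  refine ⟨fun k hk ρ hρ f a₀ τ θ hf hτ hv hθ => ?_, Pool.Agent.R482.ST.ex_mul, Pool.Agent.R482.ST.ex_pow, Pool.Agent.R482.ST.ex_orbit⟩
  classical
  have hk0 : (0 : ℝ) ≤ k := Nat.cast_nonneg k
  have hs : (0 : ℝ) ≤ max ((k : ℝ) + 1 / 2) (((k : ℝ) + 1) / 2 + ρ) := le_trans (by positivity) (le_max_left _ _)
  have hG : ∀ G : Polynomial ℤ, ∃ E : Set (Fin (k + 1) → ℝ),
      dimH E ≤ ENNReal.ofReal ((max ((k : ℝ) + 1 / 2) (((k : ℝ) + 1) / 2 + ρ) + τ) / (1 - θ)) ∧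
        ∀ u : Fin (k + 1) → ℝ, a₀ < ‖u‖ → u ∉ E → ∀ c : ℝ, ∃ n₀ : ℕ, ∀ n : ℕ, n₀ ≤ n →
          ∀ z : Fin (k + 1) → ℤ, Near (f n) (c * (f n ‖u‖) ^ θ) u z →
            ∀ x y : ℤ, y ^ 2 = G.eval x + ∑ i : Fin (k + 1), z i * x ^ (i : ℕ) → (f n ‖u‖) ^ ρ < |(x : ℝ)| := by
    intro G
    obtain ⟨E, hE, h⟩ := Pool.Agent.R482.ST.vec_prop (ι := Fin (k + 1))
      (fun z X => ∃ x y : ℤ, y ^ 2 = G.eval x + ∑ i : Fin (k + 1), z i * x ^ (i : ℕ) ∧ |(x : ℝ)| ≤ (max X 0) ^ ρ)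
      (fun z X Y hXY ⟨x, y, h1, h2⟩ => ⟨x, y, h1, h2.trans (Real.rpow_le_rpow (le_max_right _ _)
        (max_le_max hXY le_rfl) hρ)⟩) hs (fun ε hε => by
        set ε' : ℝ := ε / (ρ + 1) with hε'
        have hε0 : 0 < ε' := by positivity
        have hερ : ρ * ε' ≤ ε := by
          rw [hε', mul_div_assoc', div_le_iff₀ (by positivity)]
          nlinarith
        obtain ⟨C, hC⟩ := PerturbationsOfAnyPolynomial.result k hk ε' hε0
        refine ⟨2 * |C|, fun H hH => ?_⟩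
        have hH1 : (1 : ℝ) ≤ H := by exact_mod_cast hH
        have hH0 : (0 : ℝ) < H := by linarith
        obtain ⟨g1, g2⟩ := hC G H ((H : ℝ) ^ ρ) hH1 (Real.one_le_rpow hH1 hρ)
        have hsub : {z : Fin (k + 1) → ℤ | (∀ i, |z i| ≤ (H : ℤ)) ∧ ∃ x y : ℤ,
            y ^ 2 = G.eval x + ∑ i : Fin (k + 1), z i * x ^ (i : ℕ) ∧ |(x : ℝ)| ≤ (max (H : ℝ) 0) ^ ρ} ⊆
            Prod.fst '' Points k G H ((H : ℝ) ^ ρ) := by
          rintro z ⟨h1, x, y, h2, h3⟩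
          rw [max_eq_left hH0.le] at h3
          refine ⟨(z, x, y), ⟨fun i => ?_, h3, h2⟩, rfl⟩
          have := h1 i
          exact_mod_cast this
        refine (Nat.cast_le.2 ((Set.ncard_le_ncard hsub (g1.image _)).trans (Set.ncard_image_le g1))).trans
          (g2.trans ?_)
        have e1 : ((H : ℝ) ^ ρ) ^ ε' ≤ (H : ℝ) ^ ε := by
          rw [← Real.rpow_mul hH0.le]
          exact Real.rpow_le_rpow_of_exponent_le hH1 hερ
        have e2 : (H : ℝ) ^ ((k : ℝ) + 1 / 2) ≤ (H : ℝ) ^ (max ((k : ℝ) + 1 / 2) (((k : ℝ) + 1) / 2 + ρ)) :=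
          Real.rpow_le_rpow_of_exponent_le hH1 (le_max_left _ _)
        have e3 : (H : ℝ) ^ (((k : ℝ) + 1) / 2) * (H : ℝ) ^ ρ ≤
            (H : ℝ) ^ (max ((k : ℝ) + 1 / 2) (((k : ℝ) + 1) / 2 + ρ)) := by
          rw [← Real.rpow_add hH0]
          exact Real.rpow_le_rpow_of_exponent_le hH1 (le_max_right _ _)
        have e4 : (0 : ℝ) ≤ (H : ℝ) ^ ((k : ℝ) + 1 / 2) + (H : ℝ) ^ (((k : ℝ) + 1) / 2) * (H : ℝ) ^ ρ := by positivity
        calc C * ((H : ℝ) ^ ρ) ^ ε' * ((H : ℝ) ^ ((k : ℝ) + 1 / 2) + (H : ℝ) ^ (((k : ℝ) + 1) / 2) * (H : ℝ) ^ ρ)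
            ≤ |C| * ((H : ℝ) ^ ρ) ^ ε' * ((H : ℝ) ^ ((k : ℝ) + 1 / 2) + (H : ℝ) ^ (((k : ℝ) + 1) / 2) * (H : ℝ) ^ ρ) := by
              apply mul_le_mul_of_nonneg_right _ e4
              exact mul_le_mul_of_nonneg_right (le_abs_self C) (by positivity)
          _ ≤ |C| * (H : ℝ) ^ ε * ((H : ℝ) ^ (max ((k : ℝ) + 1 / 2) (((k : ℝ) + 1) / 2 + ρ)) +
              (H : ℝ) ^ (max ((k : ℝ) + 1 / 2) (((k : ℝ) + 1) / 2 + ρ))) :=
              mul_le_mul (mul_le_mul_of_nonneg_left e1 (abs_nonneg C)) (add_le_add e2 e3) e4 (by positivity)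
          _ = 2 * |C| * ((H : ℝ) ^ (max ((k : ℝ) + 1 / 2) (((k : ℝ) + 1) / 2 + ρ)) * (H : ℝ) ^ ε) := by ring
          _ = _ := by rw [← Real.rpow_add hH0]) f a₀ τ θ hf hτ hv hθ
    refine ⟨E, hE, fun u hu huE c => ?_⟩
    obtain ⟨n₀, hn⟩ := h u hu huE c
    refine ⟨n₀, fun n hn1 z hz x y hxy => ?_⟩
    by_contra hcon
    have hpos : 0 < f n ‖u‖ := (hf.2 n _ _ hu le_rfl).1
    refine hn n hn1 z hz ⟨x, y, hxy, ?_⟩
    rw [max_eq_left hpos.le]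
    exact not_lt.1 hcon
  have : Countable (Polynomial ℤ) := by
    rw [← Cardinal.mk_le_aleph0_iff]
    exact Polynomial.cardinalMk_le_max.trans (by simp)
  choose F hF1 hF2 using hG
  refine ⟨⋃ G, F G, ?_, fun u hu huE G => hF2 G u hu fun h => huE (Set.mem_iUnion.2 ⟨G, h⟩)⟩
  rw [dimH_iUnion]
  exact iSup_le hF1

end Pool.Agent.Results.MP_d88658_nt.StarshapedPolynomials
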